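import Pool.Agent.H68.Gw5

set_option autoImplicit false

namespace Pool.Agent.Results.MP_709e2b_gt.Unbounded

open Pool.Agent.H68.Gn

/-- Planar geodesic multinets with three fixed unbalanced vertices, bounded multiplicities and
arbitrarily many balanced vertices. -/
theorem result :
    ∃ n : ℕ, 1 ≤ n ∧ ∃ U : Finset ℂ, U.card = 3 ∧ ∀ N : ℕ,
      ∃ (V : Finset ℂ) (G : SimpleGraph ℂ) (m : ℂ → ℂ → ℕ),
        (∀ a b : ℂ, G.Adj a b → a ∈ V ∧ b ∈ V) ∧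
        (∀ a ∈ V, ∀ b ∈ V, G.Reachable a b) ∧
        (∀ a b c d : ℂ, G.Adj a b → G.Adj c d → ¬ ((a = c ∧ b = d) ∨ (a = d ∧ b = c)) →
          ∀ x ∈ segment ℝ a b ∩ segment ℝ c d, (x = a ∨ x = b) ∧ (x = c ∨ x = d)) ∧
        (∀ a b v : ℂ, G.Adj a b → v ∈ V → v ∈ segment ℝ a b → v = a ∨ v = b) ∧
        (∀ a b : ℂ, m a b = m b a) ∧
        (∀ a b : ℂ, G.Adj a b → 1 ≤ m a b ∧ m a b ≤ n) ∧
        U ⊆ V ∧
        (∀ a ∈ U, ∀ b ∈ U, ¬ G.Adj a b) ∧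
        (∀ v ∈ V, v ∉ U → 3 ≤ (G.neighborSet v).ncard ∧
          (∑ᶠ w ∈ G.neighborSet v, (m v w : ℂ) * ((w - v) / ((‖w - v‖ : ℝ) : ℂ))) = 0) ∧
        N < Set.ncard {v : ℂ | v ∈ V ∧ v ∉ U} := by
  classical
  obtain ⟨M, hM, h⟩ := allbal
  have mU : ∀ v : ℂ, v ∈ ({⟨7 / 3, 1⟩, ⟨-7 / 3, 1⟩, ⟨0, -4 / 3⟩} : Finset ℂ) ↔
      ∃ (k : Fin 2) (j : Fin 2), v = R (sg k) (an j) := fun v => by
    simp only [Finset.mem_insert, Finset.mem_singleton, Fin.exists_fin_two]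
    simp [R, sg, an, neg_div]
    tauto
  have s2 : ∀ k, ∃ e : Fin 2, sg e = sg k := fun k => by
    rcases sg_or k with h | h
    · exact ⟨0, by rw [h]; simp [sg]⟩
    · exact ⟨1, by rw [h]; simp [sg]⟩
  refine ⟨40 * M, by omega, {⟨7 / 3, 1⟩, ⟨-7 / 3, 1⟩, ⟨0, -4 / 3⟩}, ?_, fun N => ?_⟩
  · refine Finset.card_eq_three.2 ⟨_, _, _, ?_, ?_, ?_, rfl⟩ <;> simp [Complex.ext_iff] <;> norm_num
  obtain ⟨p, hp, hc, hb⟩ := h (N + 1) (by omega)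
  obtain ⟨V, G, m, c1, c2, c3, c4, c5, c6, c7, c8, c9, c10, c11⟩ := netW M p _ hp hc
  refine ⟨V, G, m, c1, c2, c3, c4, c5, fun a b e => ?_, fun v hv => ?_, fun a ha b hb => ?_,
    fun v hv hU => ?_, ?_⟩
  · obtain ⟨i, e⟩ := c6 a b e
    rw [e]; exact WW_bd M _ hM i
  · obtain ⟨k, j, rfl⟩ := (mU v).1 hv
    exact (c8 k (by omega)).2 j
  · obtain ⟨k, j, rfl⟩ := (mU a).1 ha
    obtain ⟨k', j', rfl⟩ := (mU b).1 hb
    exact c7 _ _ _ _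
  · rw [c9 v hv]
    by_cases e : ∃ k ≤ N + 1 + 1, qq p k = v
    · obtain ⟨k, hk, rfl⟩ := e
      exact ⟨c11 k hk, hb k hk⟩
    · refine c10 v hv fun k hk => ⟨fun e' => e ⟨k, hk, e'⟩, fun j e' => hU ((mU v).2 ?_)⟩
      obtain ⟨x, hx⟩ := s2 k
      exact ⟨x, j, by rw [hx, e']⟩
  · have hi : Set.InjOn (fun k => qq p k) (Finset.range (N + 1) : Set ℕ) := by
      intro i hi j hj e
      simp only [Finset.coe_range, Set.mem_Iio] at hi hj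
      exact qinjw p _ hc _ _ (by omega) (by omega) e
    refine lt_of_lt_of_le (b := ((fun k => qq p k) '' (Finset.range (N + 1) : Set ℕ)).ncard)
      (by rw [hi.ncard_image, Set.ncard_coe_finset, Finset.card_range]; omega)
      (Set.ncard_le_ncard ?_ (V.finite_toSet.subset fun v hv => hv.1))
    rintro _ ⟨k, hk, rfl⟩
    simp only [Finset.coe_range, Set.mem_Iio] at hk
    refine ⟨(c8 k (by omega)).1, fun hU => ?_⟩
    obtain ⟨a, j, e⟩ := (mU _).1 hU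
    exact qnew p hp _ _ _ e.symm

end Pool.Agent.Results.MP_709e2b_gt.Unbounded
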